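import Mathlib
import Pool.Agent.Y631.TrMain2

set_option autoImplicit false

/-!
# Counting with finer classes, and small groups of outputs
-/

open Finset

namespace Pool.Agent.Y631.Tr

namespace Net

variable {ι ω α β : Type} (C : Net ι ω α)

/-- **Counting**, when the inputs are functions of finer random variables. -/
theorem piece_fine {Y : Type} [Fintype Y] [Fintype α] (inp : Y → ι → α) (fine : Y → ι → β)
    (hfine : ∀ y y' i, fine y i = fine y' i → inp y i = inp y' i) (tg : Y → ω → α)
    (A : Finset Y) (hA : ∀ y ∈ A, C.Computes (inp y) (tg y)) {S B : Finset (Fin C.size)}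
    (hcl : Closed C.Joined S B) (c : ℕ) (J : Finset ω)
    (hJ : ∀ o ∈ J, C.out o ∈ S ∨ C.out o ∈ B)
    (hc : ∀ y0 ∈ A, Nat.card {y // y ∈ A ∧ (∀ i ∈ C.readSet S, fine y i = fine y0 i) ∧
      ∀ o ∈ J, tg y o = tg y0 o} * c ≤ Nat.card {y // ∀ i ∈ C.readSet S, fine y i = fine y0 i}) :
    A.card * c ≤ Fintype.card α ^ B.card * Fintype.card Y := by
  classical
  rcases A.eq_empty_or_nonempty with h0 | ⟨ya, hya⟩
  · rw [h0]
    simp
  obtain ⟨va, -, -⟩ := hA ya hya
  have hv : ∀ y : Y, ∃ v : Fin C.size → α, y ∈ A →
      (∀ g, v g = C.op g (fun a => Sum.elim (inp y) v (C.src g a))) ∧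
      ∀ o, v (C.out o) = tg y o := by
    intro y
    by_cases hy : y ∈ A
    · obtain ⟨v, h1, h2⟩ := hA y hy
      exact ⟨v, fun _ => ⟨h1, h2⟩⟩
    · exact ⟨va, fun h => absurd h hy⟩
  choose v hv using hv
  -- the classes
  obtain ⟨f, hf⟩ : ∃ f : Y → ({g // g ∈ B} → α), f = fun y g => v y g.1 := ⟨_, rfl⟩
  obtain ⟨r, hr⟩ : ∃ r : Y → ({i // i ∈ C.readSet S} → β), r = fun y i => fine y i.1 := ⟨_, rfl⟩
  have key : ∀ z : {g // g ∈ B} → α, (A.filter (fun y => f y = z)).card * c ≤ Fintype.card Y := by
    intro z
    obtain ⟨Az, hAz⟩ : ∃ Az, Az = A.filter (fun y => f y = z) := ⟨_, rfl⟩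
    rw [← hAz]
    have e1 : Az.card = ∑ b ∈ Az.image r, (Az.filter (fun y => r y = b)).card :=
      Finset.card_eq_sum_card_image r Az
    rw [e1, Finset.sum_mul]
    calc ∑ b ∈ Az.image r, (Az.filter (fun y => r y = b)).card * c ≤
          ∑ b ∈ Az.image r, (univ.filter (fun y => r y = b)).card := by
          apply Finset.sum_le_sum
          intro b hb
          obtain ⟨y0, hy0, hb⟩ := mem_image.1 hb
          have hy0A : y0 ∈ A ∧ f y0 = z := by
            rw [hAz, mem_filter] at hy0
            exact hy0
          refine le_trans (Nat.mul_le_mul_right _ ?_) ((hc y0 hy0A.1).trans ?_)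
          · rw [Nat.card_eq_fintype_card, Fintype.card_subtype]
            apply card_le_card
            intro y hy
            rw [mem_filter, hAz, mem_filter] at hy
            rw [mem_filter]
            obtain ⟨⟨hyA, hyz⟩, hyb⟩ := hy
            have hrd : ∀ i ∈ C.readSet S, fine y i = fine y0 i := by
              intro i hi
              rw [← hb, hr] at hyb
              exact congrFun hyb ⟨i, hi⟩
            refine ⟨mem_univ _, hyA, hrd, ?_⟩
            intro o ho
            obtain ⟨hv1, hv2⟩ := hv y hyA
            obtain ⟨hw1, hw2⟩ := hv y0 hy0A.1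
            have hBd : ∀ g ∈ B, v y g = v y0 g := by
              intro g hg
              have h5 : f y = f y0 := by rw [hyz, hy0A.2]
              rw [hf] at h5
              exact congrFun h5 ⟨g, hg⟩
            rw [← hv2 o, ← hw2 o]
            rcases hJ o ho with h6 | h6
            · exact C.local_vals hcl hv1 hw1 hBd (fun i hi => hfine _ _ _ (hrd i hi)) _ h6
            · exact hBd _ h6
          · rw [Nat.card_eq_fintype_card, Fintype.card_subtype]
            apply card_le_card
            intro y hy
            rw [mem_filter] at hy ⊢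
            refine ⟨mem_univ _, ?_⟩
            rw [← hb, hr]
            funext i
            exact hy.2 i.1 i.2
      _ ≤ Fintype.card Y := by
          rw [← Finset.card_biUnion]
          · exact card_le_univ _
          · intro b _ b' _ hne
            rw [Function.onFun, Finset.disjoint_left]
            intro y h1 h2
            rw [mem_filter] at h1 h2
            exact hne (h1.2.symm.trans h2.2)
  have e2 : A.card = ∑ z : {g // g ∈ B} → α, (A.filter (fun y => f y = z)).card :=
    Finset.card_eq_sum_card_fiberwise (fun y _ => Finset.mem_coe.2 (mem_univ (f y)))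
  rw [e2, Finset.sum_mul]
  calc ∑ z : {g // g ∈ B} → α, (A.filter (fun y => f y = z)).card * c ≤
        ∑ _z : {g // g ∈ B} → α, Fintype.card Y := Finset.sum_le_sum (fun z _ => key z)
    _ = _ := by
        rw [Finset.sum_const, card_univ, Fintype.card_fun, Fintype.card_coe, smul_eq_mul]

end Net

/-- The outputs are divided into groups of size at most `s` which belong to one piece each. -/
theorem chunks {ω P : Type} [DecidableEq ω] (cov : P → ω → Prop) (s : ℕ) (hs : 1 ≤ s) :
    ∀ (L : List P) (O : Finset ω), (∀ o ∈ O, ∃ p ∈ L, cov p o) →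
    ∃ Lc : List (P × Finset ω), (∀ q ∈ Lc, q.1 ∈ L ∧ (∀ o ∈ q.2, cov q.1 o) ∧ q.2.card ≤ s) ∧
      (∀ o ∈ O, ∃ q ∈ Lc, o ∈ q.2) ∧ s * Lc.length ≤ 2 * O.card + s * L.length := by
  classical
  intro L
  induction L with
  | nil =>
    intro O h
    refine ⟨[], by simp, ?_, by simp⟩
    intro o ho
    obtain ⟨p, hp, -⟩ := h o ho
    exact absurd hp List.not_mem_nil
  | cons p L ih =>
    intro O h
    obtain ⟨L2, h1, h2, h3⟩ := ih (O.filter (fun o => ¬ cov p o)) (by
      intro o ho
      rw [mem_filter] at ho
      obtain ⟨p', hp', h2⟩ := h o ho.1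
      rcases List.mem_cons.1 hp' with rfl | hp'
      · exact absurd h2 ho.2
      · exact ⟨p', hp', h2⟩)
    obtain ⟨L1, h4, h5, h6⟩ := bins (fun _ : ω => 1) s _ (O.filter (fun o => cov p o)) rfl
      (fun _ _ => hs)
    refine ⟨L1.map (fun G => (p, G)) ++ L2, ?_, ?_, ?_⟩
    · intro q hq
      rcases List.mem_append.1 hq with hq | hq
      · obtain ⟨G, hG, rfl⟩ := List.mem_map.1 hq
        obtain ⟨h7, h8⟩ := h4 G hG
        refine ⟨List.mem_cons_self, ?_, ?_⟩
        · intro o ho
          have := h7 ho
          rw [mem_filter] at this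
          exact this.2
        · simpa using h8
      · obtain ⟨h7, h8⟩ := h1 q hq
        exact ⟨List.mem_cons_of_mem _ h7, h8⟩
    · intro o ho
      by_cases hc : cov p o
      · obtain ⟨G, hG, hoG⟩ := h5 o (mem_filter.2 ⟨ho, hc⟩)
        exact ⟨(p, G), List.mem_append_left _ (List.mem_map_of_mem hG), hoG⟩
      · obtain ⟨q, hq, hoq⟩ := h2 o (mem_filter.2 ⟨ho, hc⟩)
        exact ⟨q, List.mem_append_right _ hq, hoq⟩
    · rw [List.length_append, List.length_map, List.length_cons]
      have h7 := Finset.card_filter_add_card_filter_not (s := O) (fun o => cov p o)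
      have h8 : ∑ _i ∈ O.filter (fun o => cov p o), 1 = (O.filter (fun o => cov p o)).card := by
        simp
      rw [h8] at h6
      have h9 : s * (L1.length + L2.length) = s * L1.length + s * L2.length := by ring
      have h10 : s * (L.length + 1) = s * L.length + s := by ring
      rw [h9, h10]
      omega

/-- Many good groups: if more than half of `O` is in `Z`, then `Z` meets many groups in at least
`k` elements. -/
theorem many_groups {ω P : Type} [DecidableEq ω] (Lc : List (P × Finset ω)) (s k N : ℕ)
    (hs : ∀ q ∈ Lc, q.2.card ≤ s) (Z : Finset ω) (hZ : ∀ o ∈ Z, ∃ q ∈ Lc, o ∈ q.2)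
    (h2 : N ≤ 2 * Z.card) (hk : 4 * (k * Lc.length) ≤ N) :
    N ≤ 4 * (s * (Lc.filter (fun q => decide (k ≤ (Z ∩ q.2).card))).length) := by
  classical
  -- the total number of elements
  have key : ∀ (L : List (P × Finset ω)) (Z' : Finset ω), (∀ q ∈ L, q.2.card ≤ s) →
      (∀ o ∈ Z', ∃ q ∈ L, o ∈ q.2) → Z' ⊆ Z →
      Z'.card ≤ s * (L.filter (fun q => decide (k ≤ (Z ∩ q.2).card))).length + k * L.length := by
    intro L
    induction L with
    | nil =>
      intro Z' _ hc _
      have : Z' = ∅ := by
        apply Finset.eq_empty_of_forall_notMem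
        intro o ho
        obtain ⟨p, hp, -⟩ := hc o ho
        exact absurd hp List.not_mem_nil
      rw [this]
      simp
    | cons q L ih =>
      intro Z' hs' hc hsub
      have h3 := ih (Z' \ q.2) (fun q' hq' => hs' q' (List.mem_cons_of_mem _ hq')) (by
        intro o ho
        rw [mem_sdiff] at ho
        obtain ⟨q', hq', h4⟩ := hc o ho.1
        rcases List.mem_cons.1 hq' with rfl | hq'
        · exact absurd h4 ho.2
        · exact ⟨q', hq', h4⟩) (sdiff_subset.trans hsub)
      have h4 : Z'.card ≤ (Z' \ q.2).card + (Z ∩ q.2).card := by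
        have h5 : Z' ⊆ (Z' \ q.2) ∪ (Z ∩ q.2) := by
          intro o ho
          rw [mem_union, mem_sdiff, mem_inter]
          by_cases h6 : o ∈ q.2
          · exact Or.inr ⟨hsub ho, h6⟩
          · exact Or.inl ⟨ho, h6⟩
        exact (card_le_card h5).trans (card_union_le _ _)
      have h5 : (Z ∩ q.2).card ≤ s :=
        (card_le_card inter_subset_right).trans (hs' q List.mem_cons_self)
      rw [List.length_cons]
      by_cases h6 : k ≤ (Z ∩ q.2).card
      · rw [List.filter_cons_of_pos (by simpa using h6), List.length_cons]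
        have h7 : s * ((L.filter (fun q => decide (k ≤ (Z ∩ q.2).card))).length + 1) =
          s * (L.filter (fun q => decide (k ≤ (Z ∩ q.2).card))).length + s := by ring
        have h8 : k * (L.length + 1) = k * L.length + k := by ring
        rw [h7, h8]
        omega
      · rw [List.filter_cons_of_neg (by simpa using h6)]
        have h8 : k * (L.length + 1) = k * L.length + k := by ring
        rw [h8]
        omega
  have h3 := key Lc Z hs hZ subset_rfl
  omega

end Pool.Agent.Y631.Tr
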