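import Mathlib
import Pool.Agent.Y631.TrLoc
import Pool.Agent.W896.MO.MvFinal

set_option autoImplicit false

/-!
# Matrix-vector products over a finite field: reads times treewidth
-/

open Finset

namespace Pool.Agent.Y631.Tr

open Pool.Agent.W896.MO (mv flat LG rows_count sum_ceil bad_count avg_exists card_flat)

/-- A covered set is at most as large as the sum of its parts. -/
theorem cover_sum {ω P : Type} (cov : P → ω → Prop) [∀ p, DecidablePred (cov p)] :
    ∀ (L : List P) (O : Finset ω), (∀ o ∈ O, ∃ p ∈ L, cov p o) →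
      O.card ≤ (L.map (fun p => (O.filter (cov p)).card)).sum := by
  classical
  intro L
  induction L with
  | nil =>
    intro O h
    have : O = ∅ := by
      apply Finset.eq_empty_of_forall_notMem
      intro o ho
      obtain ⟨p, hp, -⟩ := h o ho
      exact absurd hp List.not_mem_nil
    rw [this]
    simp
  | cons p L ih =>
    intro O h
    rw [List.map_cons, List.sum_cons]
    have h1 := ih (O.filter (fun o => ¬ cov p o)) (by
      intro o ho
      rw [mem_filter] at ho
      obtain ⟨p', hp', h2⟩ := h o ho.1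
      rcases List.mem_cons.1 hp' with rfl | hp'
      · exact absurd h2 ho.2
      · exact ⟨p', hp', h2⟩)
    have h2 : (L.map (fun p' => ((O.filter (fun o => ¬ cov p o)).filter (cov p')).card)).sum ≤
        (L.map (fun p' => (O.filter (cov p')).card)).sum := by
      apply List.sum_le_sum
      intro p' _
      apply card_le_card
      intro o ho
      rw [mem_filter, mem_filter] at ho
      rw [mem_filter]
      exact ⟨ho.1.1, ho.2⟩
    have h3 := Finset.card_filter_add_card_filter_not (s := O) (cov p)
    omega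

variable {F : Type} [Field F] [Fintype F] {n m : ℕ}

/-- One circuit. -/
theorem mv_net [DecidableEq F] (M : Fin n → Fin n → F) (hM : LG M) (hn : 32 ≤ n)
    (C : Net (Fin m × Fin n) (Fin m × Fin n) F) (t π : ℕ) (ht : C.TreewidthLE t)
    (h : Fintype.card F ^ (n * m) ≤ Fintype.card F ^ π *
      Nat.card {v : Fin m × Fin n → F // C.Computes v (mv M v)}) :
    n ^ 2 * m ≤ 2 ^ 14 * ((t + 1 + π) * (C.reads + n)) := by
  classical
  obtain ⟨q, hq⟩ : ∃ q, q = Fintype.card F := ⟨_, rfl⟩
  have hq2 : 2 ≤ q := by rw [hq]; exact Fintype.one_lt_card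
  obtain ⟨w, hw⟩ : ∃ w, w = n / 32 := ⟨_, rfl⟩
  obtain ⟨L, hL1, hL2, hL3⟩ := C.exists_pieces t ht w
  obtain ⟨A, hA⟩ : ∃ A, A = univ.filter (fun y : Fin m → Fin n → F =>
    C.Computes (flat y) (mv M (flat y))) := ⟨_, rfl⟩
  rw [card_flat (F := F) (fun v => C.Computes v (mv M v)), Nat.card_eq_fintype_card,
    Fintype.card_subtype, ← hA, ← hq] at h
  have hY : Fintype.card (Fin m → Fin n → F) = q ^ (n * m) := by
    rw [Fintype.card_fun, Fintype.card_fun, Fintype.card_fin, Fintype.card_fin, ← pow_mul, hq]
  obtain ⟨J, hJ⟩ : ∃ J : Finset (Fin C.size) × Finset (Fin C.size) × ℕ → Finset (Fin m × Fin n),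
    ∀ p, J p = univ.filter (fun o => C.out o ∈ p.1 ∨ C.out o ∈ p.2.1) := ⟨_, fun _ => rfl⟩
  have key : ∀ p ∈ L, (J p).card ≤ 16 * (t + 1 + π) * (p.2.2 + 1) := by
    intro p hp
    obtain ⟨hcl, hBc, hSw⟩ := hL1 p hp
    have hrc := (C.card_readSet p.1).trans hSw
    have hcount := C.piece_count (flat : (Fin m → Fin n → F) → _) (fun y => mv M (flat y)) A
      (fun y hy => by rw [hA, mem_filter] at hy; exact hy.2) hcl (q ^ ((J p).card / 16)) (J p)
      (fun o ho => by rw [hJ, mem_filter] at ho; exact ho.2) (by
        intro y0 _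
        obtain ⟨Q, hQ⟩ : ∃ Q : Fin m → Finset (Fin n), ∀ j, Q j =
          univ.filter (fun k => (j, k) ∈ C.readSet p.1) := ⟨_, fun _ => rfl⟩
        obtain ⟨J', hJ'⟩ : ∃ J' : Fin m → Finset (Fin n), ∀ j, J' j =
          univ.filter (fun k => (j, k) ∈ J p) := ⟨_, fun _ => rfl⟩
        have hQc : ∀ j, (Q j).card ≤ w := by
          intro j
          refine le_trans ?_ hrc
          rw [hQ]
          refine Finset.card_le_card_of_injOn (fun k => (j, k)) ?_ ?_
          · intro k hk
            rw [mem_coe, mem_filter] at hk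
            exact hk.2
          · intro k _ k' _ h2
            exact (Prod.ext_iff.1 h2).2
        have hr := rows_count M hM y0 Q J' univ (fun j _ => by
          have := hQc j
          omega)
        have hJs : (J p).card ≤ ∑ j ∈ (univ : Finset (Fin m)), (J' j).card := by
          rw [Finset.card_eq_sum_card_fiberwise (f := Prod.fst) (t := univ)
            (fun o _ => mem_coe.2 (mem_univ _))]
          apply Finset.sum_le_sum
          intro j _
          rw [hJ']
          refine Finset.card_le_card_of_injOn Prod.snd ?_ ?_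
          · rintro ⟨j', k⟩ ho
            rw [mem_coe, mem_filter] at ho
            rw [mem_coe, mem_filter]
            obtain ⟨h2, h3⟩ := ho
            simp only at h3
            subst h3
            exact ⟨mem_univ _, h2⟩
          · rintro ⟨j1, k1⟩ h2 ⟨j2, k2⟩ h3 h4
            rw [mem_coe, mem_filter] at h2 h3
            simp only at h2 h3 h4
            rw [h2.2, h3.2, h4]
        have hceil := sum_ceil J' univ hJs
        rw [← hq] at hr
        refine le_trans (Nat.mul_le_mul_left _ (Nat.pow_le_pow_right (by omega) hceil)) ?_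
        refine le_trans (Nat.mul_le_mul_right _ ?_) (hr.trans ?_)
        · rw [Nat.card_eq_fintype_card, Fintype.card_subtype]
          apply card_le_card
          intro y hy
          rw [mem_filter] at hy ⊢
          obtain ⟨-, -, h2, h3⟩ := hy
          refine ⟨mem_univ _, fun j k hk => ?_, fun j o ho => ?_⟩
          · rw [hQ, mem_filter] at hk
            exact h2 (j, k) hk.2
          · rw [hJ', mem_filter] at ho
            exact h3 (j, o) ho.2
        · rw [Nat.card_eq_fintype_card, Fintype.card_subtype]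
          apply card_le_card
          intro y hy
          rw [mem_filter] at hy ⊢
          refine ⟨mem_univ _, ?_⟩
          rintro ⟨j, k⟩ hi
          exact hy.2 j k (by rw [hQ, mem_filter]; exact ⟨mem_univ _, hi⟩))
    rw [← hq, hY] at hcount
    have h2 : q ^ ((J p).card / 16) ≤ q ^ (π + p.2.1.card) := by
      have h3 : 0 < q ^ (n * m) := by positivity
      refine Nat.le_of_mul_le_mul_left ?_ h3
      calc q ^ (n * m) * q ^ ((J p).card / 16) ≤ (q ^ π * A.card) * q ^ ((J p).card / 16) :=
            Nat.mul_le_mul_right _ h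
        _ = q ^ π * (A.card * q ^ ((J p).card / 16)) := by rw [mul_assoc]
        _ ≤ q ^ π * (q ^ p.2.1.card * q ^ (n * m)) := Nat.mul_le_mul_left _ hcount
        _ = q ^ (n * m) * q ^ (π + p.2.1.card) := by rw [pow_add]; ring
    have h3 : (J p).card / 16 ≤ π + p.2.1.card := (Nat.pow_le_pow_iff_right (by omega)).1 h2
    have h4 : (J p).card ≤ 16 * (π + p.2.2 * (t + 1)) + 16 := by omega
    refine h4.trans ?_
    calc 16 * (π + p.2.2 * (t + 1)) + 16 ≤
          16 * (π + p.2.2 * (t + 1)) + 16 + 16 * (t + π * p.2.2) := Nat.le_add_right _ _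
      _ = 16 * (t + 1 + π) * (p.2.2 + 1) := by ring
  have hsum : n * m ≤ 16 * (t + 1 + π) * cost L := by
    have h2 := cover_sum (fun (p : Finset (Fin C.size) × Finset (Fin C.size) × ℕ)
      (o : Fin m × Fin n) => C.out o ∈ p.1 ∨ C.out o ∈ p.2.1) L univ (fun o _ => hL2 (C.out o))
    rw [card_univ, Fintype.card_prod, Fintype.card_fin, Fintype.card_fin, mul_comm] at h2
    refine h2.trans ?_
    unfold cost
    rw [← List.sum_map_mul_left]
    apply List.sum_le_sum
    intro p hp
    have h3 := key p hp
    rw [hJ] at h3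
    exact h3
  have h5 : w * (n * m) ≤ 16 * (t + 1 + π) * (11 * C.reads + w) := by
    calc w * (n * m) ≤ w * (16 * (t + 1 + π) * cost L) := Nat.mul_le_mul_left _ hsum
      _ = 16 * (t + 1 + π) * (w * cost L) := by ring
      _ ≤ _ := Nat.mul_le_mul_left _ hL3
  have h6 : n ≤ 64 * w := by omega
  calc n ^ 2 * m = n * (n * m) := by ring
    _ ≤ 64 * w * (n * m) := Nat.mul_le_mul_right _ h6
    _ = 64 * (w * (n * m)) := by ring
    _ ≤ 64 * (16 * (t + 1 + π) * (11 * C.reads + w)) := Nat.mul_le_mul_left _ h5
    _ ≤ 64 * (16 * (t + 1 + π) * (11 * (C.reads + n))) := by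
        apply Nat.mul_le_mul_left
        apply Nat.mul_le_mul_left
        omega
    _ = 11264 * ((t + 1 + π) * (C.reads + n)) := by ring
    _ ≤ _ := Nat.mul_le_mul_right _ (by norm_num)

/-- **Random circuits.** -/
theorem mv_nets (n : ℕ) (hn : 32 ≤ n) : ∃ Bad : Set (Fin n → Fin n → F),
    Nat.card Bad * 2 ^ (n / 4) ≤ Fintype.card F ^ (n * n) ∧
    ∀ M, M ∉ Bad → ∀ (m t r π : ℕ) (R : Type) [Fintype R] [Nonempty R]
      (C : R → Net (Fin m × Fin n) (Fin m × Fin n) F),
      (∀ i, (C i).reads ≤ r ∧ (C i).TreewidthLE t) →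
      Nat.card R * Fintype.card F ^ (n * m) ≤ Fintype.card F ^ π *
        Nat.card {u : R × (Fin m × Fin n → F) // (C u.1).Computes u.2 (mv M u.2)} →
      n ^ 2 * m ≤ 2 ^ 14 * ((t + 1 + π) * (r + n)) := by
  classical
  refine ⟨{M | ¬ LG M}, ?_, ?_⟩
  · have h1 := bad_count (F := F) (n := n) (by omega)
    refine le_trans (le_of_eq ?_) h1
    congr 1
    rw [Nat.card_eq_fintype_card]
    rw [Fintype.card_ofFinset]
    congr 1
  · intro M hM m t r π R _ _ C hC hc
    have hM' : LG M := by
      by_contra h1
      exact hM h1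
    obtain ⟨i, hi⟩ := avg_exists (fun i v => (C i).Computes v (mv M v)) (Fintype.card F ^ π) (by
      rw [Nat.card_eq_fintype_card (α := Fin m × Fin n → F), Fintype.card_fun, Fintype.card_prod,
        Fintype.card_fin, Fintype.card_fin, mul_comm m n]
      exact hc)
    rw [Nat.card_eq_fintype_card (α := Fin m × Fin n → F), Fintype.card_fun, Fintype.card_prod,
        Fintype.card_fin, Fintype.card_fin, mul_comm m n] at hi
    refine (mv_net M hM' hn (C i) t π (hC i).2 hi).trans ?_
    apply Nat.mul_le_mul_left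
    apply Nat.mul_le_mul_left
    have := (hC i).1
    omega

end Pool.Agent.Y631.Tr
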