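import Mathlib
import Pool.Agent.Y631.ApA
import Pool.Agent.W896.MO.ApspFinal

set_option autoImplicit false

/-!
# All-pairs shortest paths by circuits of small treewidth: choice of the parameters
-/

open Finset

namespace Pool.Agent.Y631.Tr

open Pool.Agent.H537R2.Apsp (Graph)
open Pool.Agent.H537R2.Apsq (cnt cnt_mono cnt_nonneg cnt_eq Cons exists_family)
open Pool.Agent.H537R2.Apsr
open Pool.Agent.W896.MO (dists num_pieces)

/-- The bound with explicit parameters. -/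
theorem apsp_aux {N L φ ℓ κ S T : ℕ} (hN : 2 ^ L ≤ N) (hNL : N < 2 ^ (L + 1)) (hℓ : L = ℓ + φ + 3)
    (hφ : L + 1 ≤ 2 ^ φ) (hφ1 : 1 ≤ φ) (hκ : 20 * S ≤ 2 ^ κ)
    (hℓ6 : 6 ≤ ℓ) (h1 : κ + 4 * φ + 20 ≤ 2 * ℓ)
    (hT : T * 2 ^ (κ + 6 * φ + 35) ≤ 2 ^ (4 * ℓ)) (hTN : T < N ^ 4) (hT0 : 0 < T) :
    ∃ (c m : ℕ) (K : ℕ → Fin (2 ^ ℓ) → Finset (Fin (2 ^ ℓ))) (e : Vx c (2 ^ ℓ) → Fin N),
      Function.Injective e ∧
      ∀ (α : Type) [Fintype α] (C : Net (Fin N × Fin N) (Fin N × Fin N) α) (inp : ℕ∞ → α)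
        (dec : α → ℕ∞) (t b : ℕ), C.TreewidthLE t → 2 * C.reads ≤ T → Fintype.card α ≤ 2 ^ b →
        b * (t + 1) + L ≤ S →
      2 * Nat.card {x : Jx c (2 ^ ℓ) → Fin (2 ^ m) // NetDist C inp dec (graph K e x)} ≤
        Nat.card (Jx c (2 ^ ℓ) → Fin (2 ^ m)) := by
  classical
  obtain ⟨m, hm⟩ : ∃ m, m + 13 + κ + 2 * φ = 2 * ℓ := ⟨2 * ℓ - 13 - κ - 2 * φ, by omega⟩
  obtain ⟨c, hc⟩ : ∃ c, c + φ + 4 = m := ⟨m - 4 - φ, by omega⟩
  have hφ2 : 2 ^ (φ + 1) = 2 * 2 ^ φ := by rw [pow_succ]; ring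
  have hc1 : c + 1 ≤ 2 ^ (φ + 1) := by omega
  choose K hK1 hK2 using exists_family ℓ φ (by omega) hφ1
  obtain ⟨e, he⟩ := exists_embedding (c := c) (n := 2 ^ ℓ) (N := N) (by
    calc 2 * 2 ^ ℓ + 2 * ((c + 1) * 2 ^ ℓ) = (2 + 2 * (c + 1)) * 2 ^ ℓ := by ring
      _ ≤ (8 * 2 ^ φ) * 2 ^ ℓ := Nat.mul_le_mul_right _ (by omega)
      _ = 2 ^ L := by rw [hℓ, pow_add, pow_add]; ring
      _ ≤ N := hN)
  refine ⟨c, m, K, e, he, ?_⟩
  intro α _ C inp dec t b ht hCT hb hS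
  obtain ⟨r, hr⟩ : ∃ r, r = κ + 3 * φ + 5 := ⟨_, rfl⟩
  have hrc : r + c = 2 * ℓ - 12 := by omega
  obtain ⟨y, hy⟩ : ∃ y, y = (ℓ + 1) * 2 ^ (r + 13) := ⟨_, rfl⟩
  obtain ⟨a, ha⟩ : ∃ a, a = 2 ^ (r + c - 2 * φ - 3) := ⟨_, rfl⟩
  have ha4 : 4 * a = 2 ^ (r + c - 2 * φ - 1) := by
    rw [ha, show r + c - 2 * φ - 1 = 2 + (r + c - 2 * φ - 3) by omega, pow_add]
    norm_num
  have ha0 : 0 < a := by rw [ha]; positivity
  have hy0 : 1 ≤ y := by rw [hy]; exact Nat.succ_le_of_lt (by positivity)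
  have hBn := num_pieces hr hrc (by omega) hy ha h1 hT
  obtain ⟨β, hβ⟩ : ∃ β : ℝ, β = Real.exp (-((2 : ℝ) ^ (r + c) / 2 ^ (2 * φ + 1 + m))) := ⟨_, rfl⟩
  have hE : ((20 * S : ℕ) : ℝ) ≤ (2 : ℝ) ^ (r + c) / 2 ^ (2 * φ + 1 + m) := by
    rw [le_div_iff₀ (by positivity)]
    have h1 : (2 : ℝ) ^ (r + c) = 2 ^ κ * 2 ^ (2 * φ + 1 + m) := by
      rw [← pow_add, show κ + (2 * φ + 1 + m) = r + c by omega]
    rw [h1]
    have h2 : ((20 * S : ℕ) : ℝ) ≤ 2 ^ κ := by exact_mod_cast hκ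
    exact mul_le_mul_of_nonneg_right h2 (by positivity)
  have hβ1 : β * 2 ^ (20 * S) ≤ 1 := by
    have h2 : ((2 : ℝ) ^ (20 * S)) ≤ Real.exp ((20 * S : ℕ) : ℝ) := by
      have h3 : (2 : ℝ) ≤ Real.exp 1 := by linarith [Real.exp_one_gt_d9]
      calc ((2 : ℝ) ^ (20 * S)) ≤ (Real.exp 1) ^ (20 * S) := pow_le_pow_left₀ (by norm_num) h3 _
        _ = Real.exp ((20 * S : ℕ) : ℝ) := by rw [← Real.exp_nat_mul, mul_one]
    have h3 : β ≤ Real.exp (-((20 * S : ℕ) : ℝ)) := by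
      rw [hβ]
      exact Real.exp_le_exp.2 (neg_le_neg hE)
    calc β * 2 ^ (20 * S) ≤ Real.exp (-((20 * S : ℕ) : ℝ)) * Real.exp ((20 * S : ℕ) : ℝ) :=
          mul_le_mul h3 h2 (by positivity) (Real.exp_pos _).le
      _ = 1 := by rw [← Real.exp_add, neg_add_cancel, Real.exp_zero]
  have hBn' : 2 * ((T / a + 1) * y) ≤ (2 ^ ℓ) ^ 2 := by
    rw [← pow_mul, mul_comm ℓ 2]
    exact hBn
  have hcM : 8 * ((c + 1) * 2 ^ c) ≤ 2 ^ m := by
    calc 8 * ((c + 1) * 2 ^ c) ≤ 8 * (2 ^ (φ + 1) * 2 ^ c) :=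
          Nat.mul_le_mul_left _ (Nat.mul_le_mul_right _ hc1)
      _ = 2 ^ m := by
          rw [← hc, pow_add 2 (c + φ), pow_add 2 c, hφ2]; ring
  have hs : 4 * ((T / a + 1) * 2 ^ (b * (2 * (t + 1)))) ≤ 2 ^ (20 * S) := by
    have h2 : T / a + 1 ≤ 2 ^ (4 * (L + 1)) := by
      have h3 : T / a ≤ T := Nat.div_le_self _ _
      have h4 : N ^ 4 < (2 ^ (L + 1)) ^ 4 := Nat.pow_lt_pow_left hNL (by norm_num)
      rw [← pow_mul] at h4
      have h5 : (L + 1) * 4 = 4 * (L + 1) := by ring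
      rw [h5] at h4
      omega
    calc 4 * ((T / a + 1) * 2 ^ (b * (2 * (t + 1)))) ≤
          2 ^ 2 * (2 ^ (4 * (L + 1)) * 2 ^ (b * (2 * (t + 1)))) :=
          Nat.mul_le_mul (by norm_num) (Nat.mul_le_mul_right _ h2)
      _ = 2 ^ (2 + (4 * (L + 1) + b * (2 * (t + 1)))) := by rw [pow_add, pow_add]
      _ ≤ 2 ^ (20 * S) := by
          apply Nat.pow_le_pow_right (by norm_num)
          have h6 : b * (2 * (t + 1)) = 2 * (b * (t + 1)) := by ring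
          omega
  refine apsp_net (by positivity) (by positivity) K hK1 hcM he hβ1 (w := 4 * a) (N₁ := y)
    (ν := T / a + 1) ?_ hy0 hBn' C inp dec ht ?_ (Nat.succ_pos _) hb hs
  · intro Q ρ R hQ hR
    rw [hβ]
    rw [ha4] at hQ
    rw [hy] at hR
    exact leaf K hK2 hℓ6 (by omega) (by omega) Q ρ hQ R hR
  · intro l hl
    by_contra hcon
    push Not at hcon
    have h2 : 4 * a * (T / a + 2) ≤ 4 * a * l := Nat.mul_le_mul_left _ (by omega)
    have h3 : T < a * (T / a + 1) := Nat.lt_mul_div_succ T ha0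
    have h4 : 4 * a * (T / a + 2) = 4 * (a * (T / a + 1)) + 4 * a := by ring
    omega

/-- The lower bound for deterministic circuits, on average. -/
theorem apsp_det {N S T : ℕ} (hN : 64 ≤ Nat.log 2 N) (hS : Nat.log 2 N ≤ S) (hT : N ^ 2 ≤ T)
    (h2 : 2 ^ 68 * (T * S * (Nat.log 2 N) ^ 10) ≤ N ^ 4) :
    ∃ (c m ℓ : ℕ) (K : ℕ → Fin (2 ^ ℓ) → Finset (Fin (2 ^ ℓ))) (e : Vx c (2 ^ ℓ) → Fin N),
      Function.Injective e ∧
      ∀ (α : Type) [Fintype α] (C : Net (Fin N × Fin N) (Fin N × Fin N) α) (inp : ℕ∞ → α)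
        (dec : α → ℕ∞) (t b : ℕ), C.TreewidthLE t → 2 * C.reads ≤ T → Fintype.card α ≤ 2 ^ b →
        b * (t + 1) + Nat.log 2 N ≤ S →
      2 * Nat.card {x : Jx c (2 ^ ℓ) → Fin (2 ^ m) // NetDist C inp dec (graph K e x)} ≤
        Nat.card (Jx c (2 ^ ℓ) → Fin (2 ^ m)) := by
  set L := Nat.log 2 N with hL
  have hN0 : N ≠ 0 := by
    rintro rfl
    simp at hL
    omega
  have hNL : 2 ^ L ≤ N := Nat.pow_log_le_self 2 hN0
  have hNL' : N < 2 ^ (L + 1) := Nat.lt_pow_succ_log_self (by norm_num) _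
  set φ := Nat.log 2 L + 1 with hφ
  have hφ1 : L < 2 ^ φ := Nat.lt_pow_succ_log_self (by norm_num) _
  have hφ2 : 2 ^ φ ≤ 2 * L := by
    rw [hφ, pow_succ, mul_comm]
    exact Nat.mul_le_mul_left _ (Nat.pow_log_le_self 2 (by omega))
  set κ := Nat.log 2 (20 * S) + 1 with hκ
  have hκ1 : 20 * S < 2 ^ κ := Nat.lt_pow_succ_log_self (by norm_num) _
  have hκ2 : 2 ^ κ ≤ 40 * S := by
    have : 2 ^ Nat.log 2 (20 * S) ≤ 20 * S := Nat.pow_log_le_self 2 (by omega)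
    rw [hκ, pow_succ]
    omega
  have hN2 : 2 ^ 68 * (S * L ^ 10) ≤ N ^ 2 := by
    have h3 : (2 ^ 68 * (S * L ^ 10)) * N ^ 2 ≤ N ^ 2 * N ^ 2 := by
      calc (2 ^ 68 * (S * L ^ 10)) * N ^ 2 ≤ (2 ^ 68 * (S * L ^ 10)) * T :=
            Nat.mul_le_mul_left _ hT
        _ = 2 ^ 68 * (T * S * L ^ 10) := by ring
        _ ≤ N ^ 4 := h2
        _ = N ^ 2 * N ^ 2 := by ring
    exact Nat.le_of_mul_le_mul_right h3 (by positivity)
  -- a lower bound for `ℓ`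
  have hφL : φ + 3 + 6 ≤ L := by
    have h3 : Nat.log 2 L ≤ L - 10 := by
      have h4 : L < 2 ^ (L - 9) := by
        have h5 : ∀ j, 64 + j < 2 ^ (55 + j) := by
          intro j
          induction j with
          | zero => norm_num
          | succ j ih =>
            rw [show 55 + (j + 1) = (55 + j) + 1 by ring, pow_succ]
            omega
        obtain ⟨j, hj⟩ := Nat.exists_eq_add_of_le hN
        rw [hj, show 64 + j - 9 = 55 + j by omega]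
        exact h5 j
      have h5 := Nat.log_lt_of_lt_pow (by omega) h4
      omega
    omega
  obtain ⟨ℓ, hℓ⟩ : ∃ ℓ, L = ℓ + φ + 3 := ⟨L - φ - 3, by omega⟩
  have h1 : κ + 4 * φ + 20 ≤ 2 * ℓ := by
    have h3 : 2 ^ (κ + 4 * φ + 20) * 2 ^ (2 * φ + 8) ≤ 2 ^ (2 * ℓ) * 2 ^ (2 * φ + 8) := by
      calc 2 ^ (κ + 4 * φ + 20) * 2 ^ (2 * φ + 8) = 2 ^ κ * (2 ^ φ) ^ 6 * 2 ^ 28 := by
            rw [← pow_mul, ← pow_add, ← pow_add, ← pow_add]; congr 1; ring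
        _ ≤ (40 * S) * (2 * L) ^ 6 * 2 ^ 28 := by gcongr
        _ = (40 * 2 ^ 34) * (S * L ^ 6) := by ring
        _ ≤ 2 ^ 68 * (S * L ^ 10) := by
            apply Nat.mul_le_mul (by norm_num)
            apply Nat.mul_le_mul_left
            exact Nat.pow_le_pow_right (by omega) (by norm_num)
        _ ≤ N ^ 2 := hN2
        _ ≤ (2 ^ (L + 1)) ^ 2 := Nat.pow_le_pow_left hNL'.le 2
        _ = 2 ^ (2 * ℓ) * 2 ^ (2 * φ + 8) := by
            rw [← pow_mul, ← pow_add, hℓ]; congr 1; ring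
    have h4 := Nat.le_of_mul_le_mul_right h3 (by positivity)
    exact (Nat.pow_le_pow_iff_right (by norm_num : 1 < 2)).1 h4
  have hT' : T * 2 ^ (κ + 6 * φ + 35) ≤ 2 ^ (4 * ℓ) := by
    have h3 : T * 2 ^ (κ + 6 * φ + 35) * 2 ^ (4 * φ + 16) ≤ 2 ^ (4 * ℓ) * 2 ^ (4 * φ + 16) := by
      calc T * 2 ^ (κ + 6 * φ + 35) * 2 ^ (4 * φ + 16)
          = T * 2 ^ κ * (2 ^ φ) ^ 10 * 2 ^ 51 := by
            rw [← pow_mul, mul_assoc, ← pow_add, mul_assoc (T * 2 ^ κ), ← pow_add,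
              mul_assoc, ← pow_add]
            congr 2
            ring
        _ ≤ T * (40 * S) * (2 * L) ^ 10 * 2 ^ 51 := by gcongr
        _ = (40 * 2 ^ 61) * (T * S * L ^ 10) := by ring
        _ ≤ 2 ^ 68 * (T * S * L ^ 10) := Nat.mul_le_mul_right _ (by norm_num)
        _ ≤ N ^ 4 := h2
        _ ≤ (2 ^ (L + 1)) ^ 4 := Nat.pow_le_pow_left hNL'.le 4
        _ = 2 ^ (4 * ℓ) * 2 ^ (4 * φ + 16) := by
            rw [← pow_mul, ← pow_add, hℓ]; congr 1; ring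
    exact Nat.le_of_mul_le_mul_right h3 (by positivity)
  have hT0 : 0 < T := lt_of_lt_of_le (by positivity) hT
  have hTN : T < N ^ 4 := by
    have h3 : 1 ≤ S * L ^ 10 :=
      Nat.mul_le_mul (show 1 ≤ S by omega) (Nat.one_le_pow _ _ (by omega))
    have h5 : T * 1 ≤ T * (S * L ^ 10) := Nat.mul_le_mul_left _ h3
    have h6 : T * S * L ^ 10 = T * (S * L ^ 10) := by ring
    omega
  obtain ⟨c, m, K, e, he, h⟩ := apsp_aux (N := N) (S := S) (T := T) hNL hNL' hℓ (by omega)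
    (by omega) hκ1.le (by omega) h1 hT' hTN hT0
  exact ⟨c, m, ℓ, K, e, he, h⟩

/-- **Random circuits.** -/
theorem apsp_circuits : ∃ c : ℕ, ∀ᶠ N : ℕ in Filter.atTop, ∀ (t b r : ℕ)
    (R : Type) [Fintype R] (α : R → Type) [∀ i, Fintype (α i)]
    (C : (i : R) → Net (Fin N × Fin N) (Fin N × Fin N) (α i)) (inp : (i : R) → ℕ∞ → α i)
    (dec : (i : R) → α i → ℕ∞),
      (∀ i, Fintype.card (α i) ≤ 2 ^ b ∧ (C i).TreewidthLE t ∧ (C i).reads ≤ r) →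
      (∀ w : Graph N, (∀ p, w p = 1 ∨ w p = ⊤) →
        Nat.card R < 2 * Nat.card {i : R // NetDist (C i) (inp i) (dec i) w}) →
      N ^ 4 < c * ((r + N ^ 2) * (b * (t + 1) + Nat.log 2 N) * (Nat.log 2 N) ^ 10) := by
  classical
  refine ⟨2 ^ 69, ?_⟩
  filter_upwards [Filter.eventually_ge_atTop (2 ^ 64)] with N hN t b r R _ α _ C inp dec hσ hP
  by_contra hcon
  push Not at hcon
  have hlog : 64 ≤ Nat.log 2 N := Nat.le_log_of_pow_le (by norm_num) hN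
  obtain ⟨S, hS⟩ : ∃ S, S = b * (t + 1) + Nat.log 2 N := ⟨_, rfl⟩
  obtain ⟨T, hT⟩ : ∃ T, T = 2 * r + N ^ 2 := ⟨_, rfl⟩
  have hcon2 : 2 ^ 68 * (T * S * (Nat.log 2 N) ^ 10) ≤ N ^ 4 := by
    refine le_trans ?_ hcon
    rw [← hS]
    calc 2 ^ 68 * (T * S * (Nat.log 2 N) ^ 10) ≤
          2 ^ 68 * ((2 * (r + N ^ 2)) * S * (Nat.log 2 N) ^ 10) := by
          apply Nat.mul_le_mul_left
          apply Nat.mul_le_mul_right
          apply Nat.mul_le_mul_right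
          omega
      _ = _ := by ring
  obtain ⟨c, m, ℓ, K, e, he, hdet⟩ := apsp_det (S := S) (T := T) hlog (by omega) (by omega) hcon2
  set X := Jx c (2 ^ ℓ) → Fin (2 ^ m)
  have h1 : ∀ i : R, 2 * Nat.card {x : X // NetDist (C i) (inp i) (dec i) (graph K e x)} ≤
      Nat.card X := fun i => hdet (α i) (C i) (inp i) (dec i) t b (hσ i).2.1
        (by have := (hσ i).2.2; omega) (hσ i).1 (by omega)
  have h2 : ∀ x : X, Nat.card R < 2 * Nat.card {i : R // NetDist (C i) (inp i) (dec i)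
      (graph K e x)} := fun x => hP _ fun p => graph_eq K e x p
  have h3 : ∑ x : X, Nat.card {i : R // NetDist (C i) (inp i) (dec i) (graph K e x)} =
      ∑ i : R, Nat.card {x : X // NetDist (C i) (inp i) (dec i) (graph K e x)} := by
    simp only [Nat.card_eq_fintype_card, Fintype.card_subtype, Finset.card_filter]
    exact sum_comm
  have h4 : ∑ _x : X, Nat.card R <
      ∑ x : X, 2 * Nat.card {i : R // NetDist (C i) (inp i) (dec i) (graph K e x)} := by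
    apply sum_lt_sum_of_nonempty
    · exact ⟨fun _ => ⟨0, by positivity⟩, mem_univ _⟩
    · intro x _
      exact h2 x
  have h5 : 2 * ∑ i : R, Nat.card {x : X // NetDist (C i) (inp i) (dec i) (graph K e x)} ≤
      Nat.card R * Fintype.card X := by
    rw [mul_sum]
    calc _ ≤ ∑ _i : R, Fintype.card X := by
          apply sum_le_sum
          intro i _
          have := h1 i
          rwa [Nat.card_eq_fintype_card (α := X)] at this
      _ = _ := by rw [sum_const, card_univ, smul_eq_mul, Nat.card_eq_fintype_card (α := R)]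
  rw [← mul_sum, h3] at h4
  rw [sum_const, card_univ, smul_eq_mul] at h4
  rw [mul_comm] at h4
  omega

end Pool.Agent.Y631.Tr
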