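import Mathlib
import Pool.Agent.Y631.TrModel

set_option autoImplicit false

/-!
# Circuits of small treewidth for matrix-vector products
-/

open Finset

namespace Pool.Agent.Y631.Tr

namespace Net

variable {ι ω α : Type}

/-- If the wires between gates are short, then the treewidth is small. -/
theorem tw_of_short (C : Net ι ω α) (W : ℕ) (h : ∀ h g, C.Joined h g → g.1 ≤ h.1 + W)
    (h0 : 0 < C.size) : C.TreewidthLE W := by
  classical
  obtain ⟨T, hT⟩ : ∃ T, C.size = T + 1 := ⟨C.size - 1, by omega⟩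
  refine ⟨T, fun i => ⟨i.1 - 1, by omega⟩,
    fun i => univ.filter (fun g : Fin C.size => g.1 ≤ i.1 ∧ i.1 ≤ g.1 + W), ?_, ?_, ?_, ?_⟩
  · intro i hi
    rw [Fin.lt_def] at hi ⊢
    have h1 : 0 < i.1 := hi
    simp only
    omega
  · intro i
    have h2 : (univ.filter (fun g : Fin C.size => g.1 ≤ i.1 ∧ i.1 ≤ g.1 + W)).card ≤
        (Finset.Icc (i.1 - W) i.1).card := by
      refine Finset.card_le_card_of_injOn (fun g => g.1) ?_ ?_
      · intro g hg
        rw [mem_coe, mem_filter] at hg
        rw [mem_coe, mem_Icc]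
        simp only
        omega
      · intro g _ g' _ h3
        exact Fin.ext h3
    rw [Nat.card_Icc] at h2
    refine h2.trans ?_
    omega
  · intro v
    refine ⟨⟨v.1, by omega⟩, ⟨?_, ?_⟩, ?_⟩
    · rw [mem_filter]
      exact ⟨mem_univ _, le_rfl, Nat.le_add_right _ _⟩
    · by_cases hv : v.1 = 0
      · left
        apply Fin.ext
        exact hv
      · right
        rw [mem_filter]
        rintro ⟨-, h3, -⟩
        simp only at h3
        omega
    · rintro i ⟨h3, h4⟩
      rw [mem_filter] at h3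
      apply Fin.ext
      rcases h4 with h4 | h4
      · have h5 : i.1 = 0 := by rw [h4]; rfl
        simp only
        omega
      · rw [mem_filter] at h4
        simp only at h4 ⊢
        by_contra h5
        apply h4
        refine ⟨mem_univ _, ?_, ?_⟩ <;> omega
  · intro h' g hj
    have h3 := h h' g hj
    obtain ⟨a, ha⟩ := hj
    have h4 := C.acyclic g a h' ha
    rw [Fin.lt_def] at h4
    refine ⟨⟨g.1, by omega⟩, ?_, ?_⟩
    · rw [mem_filter]
      exact ⟨mem_univ _, h4.le, h3⟩
    · rw [mem_filter]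
      exact ⟨mem_univ _, le_rfl, Nat.le_add_right _ _⟩

end Net

/-- The value of `f 0 ∘ f 1 ∘ ... ∘ f k`. -/
def pre {α : Type} (comb : α → α → α) (f : ℕ → α) : ℕ → α
  | 0 => f 0
  | k + 1 => comb (pre comb f k) (f (k + 1))

section

variable {n m s : ℕ} {α : Type}

/-- Arithmetic of the indices. -/
theorem idx1 {g s e : ℕ} (he : g % (s + 1) = e) : (g - e) % (s + 1) = 0 ∧
    (g - e) / (s + 1) = g / (s + 1) := by
  have h1 := Nat.div_add_mod g (s + 1)
  rw [he] at h1
  have h2 : g - e = (s + 1) * (g / (s + 1)) := by omega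
  rw [h2]
  exact ⟨Nat.mul_mod_right _ _, Nat.mul_div_cancel_left _ (Nat.succ_pos s)⟩

theorem idx2 {g s : ℕ} (hg : 0 < g / (s + 1)) : (g - (s + 1)) % (s + 1) = g % (s + 1) ∧
    (g - (s + 1)) / (s + 1) = g / (s + 1) - 1 := by
  have h1 : s + 1 ≤ g := (Nat.one_le_div_iff (Nat.succ_pos s)).1 hg
  obtain ⟨r, rfl⟩ := Nat.exists_eq_add_of_le h1
  have h2 := Nat.add_div_left r (Nat.succ_pos s)
  simp only [Nat.succ_eq_add_one] at h2
  rw [Nat.add_sub_cancel_left, Nat.add_mod_left, h2]
  exact ⟨rfl, by omega⟩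

theorem idx3 {q n : ℕ} (h : 0 < q % n) : (q - 1) % n = q % n - 1 ∧ (q - 1) / n = q / n := by
  rcases Nat.eq_zero_or_pos n with h0 | hn
  · subst h0
    simp
  have h1 := Nat.div_add_mod q n
  have h2 := Nat.mod_lt q hn
  have h3 : q - 1 = n * (q / n) + (q % n - 1) := by omega
  have h4 : q % n - 1 < n := by omega
  rw [h3]
  constructor
  · rw [Nat.mul_add_mod, Nat.mod_eq_of_lt h4]
  · rw [Nat.mul_add_div hn, Nat.div_eq_of_lt h4, Nat.add_zero]

/-- The circuit: for the vector `j` and the block `b` of `s` rows the entries `k` of the vector are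
copied one after another, and the `s` sums are updated. -/
def blockNet (n m s : ℕ) (hn : 0 < n) (hs : 0 < s) (c : ℕ → ℕ → α → α) (comb : α → α → α) :
    Net (Fin m × Fin n) (Fin m × Fin n) α where
  size := m * (n / s + 1) * n * (s + 1)
  arity g := if g.1 % (s + 1) = 0 then 1 else if (g.1 / (s + 1)) % n = 0 then 1 else 2
  src g a := if h : g.1 % (s + 1) = 0 then
      .inl (⟨g.1 / (s + 1) / n / (n / s + 1), by
        have h1 := g.2
        rw [Nat.div_div_eq_div_mul, Nat.div_div_eq_div_mul]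
        apply Nat.div_lt_of_lt_mul
        calc g.1 < m * (n / s + 1) * n * (s + 1) := h1
          _ = _ := by ring⟩, ⟨(g.1 / (s + 1)) % n, Nat.mod_lt _ hn⟩)
    else if a.1 = 0 then .inr ⟨g.1 - g.1 % (s + 1), (Nat.sub_le _ _).trans_lt g.2⟩
    else .inr ⟨g.1 - (s + 1), (Nat.sub_le _ _).trans_lt g.2⟩
  op g v :=
    if h : g.1 % (s + 1) = 0 then v ⟨0, by rw [if_pos h]; exact Nat.one_pos⟩
    else if h' : (g.1 / (s + 1)) % n = 0 then
      c (((g.1 / (s + 1) / n) % (n / s + 1)) * s + (g.1 % (s + 1) - 1)) ((g.1 / (s + 1)) % n)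
        (v ⟨0, by rw [if_neg h, if_pos h']; exact Nat.one_pos⟩)
    else comb (v ⟨1, by rw [if_neg h, if_neg h']; exact Nat.one_lt_two⟩)
      (c (((g.1 / (s + 1) / n) % (n / s + 1)) * s + (g.1 % (s + 1) - 1)) ((g.1 / (s + 1)) % n)
        (v ⟨0, by rw [if_neg h, if_neg h']; exact Nat.two_pos⟩))
  out o := ⟨((o.1.1 * (n / s + 1) + o.2.1 / s) * n + (n - 1)) * (s + 1) + (o.2.1 % s + 1), by
    have h1 := o.1.2
    have h2 := o.2.2
    have h3 : o.2.1 / s < n / s + 1 := Nat.lt_succ_of_le (Nat.div_le_div_right h2.le)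
    have h4 : o.2.1 % s < s := Nat.mod_lt _ hs
    have h5 : o.1.1 * (n / s + 1) + o.2.1 / s + 1 ≤ m * (n / s + 1) := by
      calc o.1.1 * (n / s + 1) + o.2.1 / s + 1 ≤ o.1.1 * (n / s + 1) + (n / s + 1) := by omega
        _ = (o.1.1 + 1) * (n / s + 1) := by ring
        _ ≤ _ := Nat.mul_le_mul_right _ h1
    have h6 : (o.1.1 * (n / s + 1) + o.2.1 / s) * n + (n - 1) + 1 ≤ m * (n / s + 1) * n := by
      calc (o.1.1 * (n / s + 1) + o.2.1 / s) * n + (n - 1) + 1 =
            (o.1.1 * (n / s + 1) + o.2.1 / s + 1) * n := by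
            rw [add_mul _ 1 n, one_mul]; omega
        _ ≤ _ := Nat.mul_le_mul_right _ h5
    calc ((o.1.1 * (n / s + 1) + o.2.1 / s) * n + (n - 1)) * (s + 1) + (o.2.1 % s + 1) <
          ((o.1.1 * (n / s + 1) + o.2.1 / s) * n + (n - 1)) * (s + 1) + (s + 1) := by omega
      _ = ((o.1.1 * (n / s + 1) + o.2.1 / s) * n + (n - 1) + 1) * (s + 1) := by ring
      _ ≤ _ := Nat.mul_le_mul_right _ h6⟩
  acyclic := by
    intro g a h hs'
    by_cases h0 : g.1 % (s + 1) = 0
    · simp only [dif_pos h0] at hs'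
      cases hs'
    · simp only [dif_neg h0] at hs'
      by_cases ha : a.1 = 0
      · rw [if_pos ha] at hs'
        injection hs' with h1
        rw [← h1, Fin.lt_def]
        simp only
        have := Nat.mod_le g.1 (s + 1)
        omega
      · rw [if_neg ha] at hs'
        injection hs' with h1
        rw [← h1, Fin.lt_def]
        simp only
        have h2 := a.2
        have h3 : ¬ (g.1 / (s + 1)) % n = 0 := by
          intro h3
          have h4 := lt_of_lt_of_eq h2 ((if_neg h0).trans (if_pos h3))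
          omega
        have h4 : 0 < g.1 / (s + 1) := by
          rcases Nat.eq_zero_or_pos (g.1 / (s + 1)) with h5 | h5
          · rw [h5, Nat.zero_mod] at h3
            exact absurd rfl h3
          · exact h5
        have h5 : s + 1 ≤ g.1 := (Nat.one_le_div_iff (Nat.succ_pos s)).1 h4
        omega

end

end Pool.Agent.Y631.Tr
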