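import Mathlib
import Pool.Agent.Y631.TrUp

set_option autoImplicit false

/-!
# Circuits of small treewidth for matrix-vector products: the properties
-/

open Finset

namespace Pool.Agent.Y631.Tr

variable {n m s : ℕ} {α : Type} (hn : 0 < n) (hs : 0 < s) (c : ℕ → ℕ → α → α) (comb : α → α → α)

theorem block_arity (g : Fin (blockNet n m s hn hs c comb).size) :
    (blockNet n m s hn hs c comb).arity g ≤ 2 := by
  change (if g.1 % (s + 1) = 0 then 1 else if (g.1 / (s + 1)) % n = 0 then 1 else 2) ≤ 2
  split_ifs <;> omega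

theorem block_tw (hm : 0 < m) : (blockNet n m s hn hs c comb).TreewidthLE (s + 1) := by
  apply Net.tw_of_short
  · rintro h g ⟨a, ha⟩
    have hsz : (blockNet n m s hn hs c comb).src g a =
      if h : g.1 % (s + 1) = 0 then
      .inl (⟨g.1 / (s + 1) / n / (n / s + 1), by
        have h1 := g.2
        rw [Nat.div_div_eq_div_mul, Nat.div_div_eq_div_mul]
        apply Nat.div_lt_of_lt_mul
        calc g.1 < m * (n / s + 1) * n * (s + 1) := h1
          _ = _ := by ring⟩, ⟨(g.1 / (s + 1)) % n, Nat.mod_lt _ hn⟩)
      else if a.1 = 0 then .inr ⟨g.1 - g.1 % (s + 1), (Nat.sub_le _ _).trans_lt g.2⟩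
      else .inr ⟨g.1 - (s + 1), (Nat.sub_le _ _).trans_lt g.2⟩ := rfl
    rw [hsz] at ha
    have hmod := Nat.mod_lt g.1 (Nat.succ_pos s)
    split_ifs at ha with h0 h1
    · injection ha with h2
      rw [← h2]
      simp only [Nat.succ_eq_add_one] at hmod ⊢
      omega
    · injection ha with h2
      rw [← h2]
      simp only
      omega
  · change 0 < m * (n / s + 1) * n * (s + 1)
    positivity

theorem block_reads (hsn : s ≤ n) : (blockNet n m s hn hs c comb).reads * s ≤ 2 * (n ^ 2 * m) := by
  classical
  obtain ⟨N, hN⟩ : ∃ N, N = m * (n / s + 1) * n := ⟨_, rfl⟩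
  have h1 : (blockNet n m s hn hs c comb).reads ≤ N := by
    have h2 : ∀ g : Fin (blockNet n m s hn hs c comb).size,
        (blockNet n m s hn hs c comb).readsAt g ≤ if g.1 % (s + 1) = 0 then 1 else 0 := by
      intro g
      unfold Net.readsAt
      by_cases h0 : g.1 % (s + 1) = 0
      · rw [if_pos h0]
        refine (card_filter_le _ _).trans ?_
        rw [card_univ, Fintype.card_fin]
        change (if g.1 % (s + 1) = 0 then 1 else if (g.1 / (s + 1)) % n = 0 then 1 else 2) ≤ 1
        rw [if_pos h0]
      · rw [if_neg h0, Nat.le_zero, card_eq_zero]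
        apply Finset.filter_false_of_mem
        intro a _ h3
        have h4 : (blockNet n m s hn hs c comb).src g a =
          if a.1 = 0 then .inr ⟨g.1 - g.1 % (s + 1), (Nat.sub_le _ _).trans_lt g.2⟩
          else .inr ⟨g.1 - (s + 1), (Nat.sub_le _ _).trans_lt g.2⟩ := dif_neg h0
        rw [h4] at h3
        split_ifs at h3 <;> cases h3
    unfold Net.reads
    refine (Finset.sum_le_sum (fun g _ => h2 g)).trans ?_
    rw [← Finset.card_filter]
    calc _ ≤ (Finset.range N).card := by
          refine Finset.card_le_card_of_injOn (fun g => g.1 / (s + 1)) ?_ ?_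
          · intro g hg
            rw [mem_coe, mem_range]
            apply Nat.div_lt_of_lt_mul
            have h3 : g.1 < m * (n / s + 1) * n * (s + 1) := g.2
            rw [← hN] at h3
            rw [mul_comm]
            exact h3
          · intro g hg g' hg' h3
            rw [mem_coe, mem_filter] at hg hg'
            apply Fin.ext
            have h4 := Nat.div_add_mod g.1 (s + 1)
            have h5 := Nat.div_add_mod g'.1 (s + 1)
            rw [hg.2] at h4
            rw [hg'.2] at h5
            simp only at h3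
            rw [← h4, ← h5, h3]
      _ = N := Finset.card_range N
  calc (blockNet n m s hn hs c comb).reads * s ≤ N * s := Nat.mul_le_mul_right _ h1
    _ = m * n * (n / s * s + s) := by rw [hN]; ring
    _ ≤ m * n * (n + n) := by
        apply Nat.mul_le_mul_left
        have := Nat.div_mul_le_self n s
        omega
    _ = _ := by ring

/-- The input number `k`. -/
def inK (x : Fin m × Fin n → α) (j : Fin m) (k : ℕ) : α := x (j, ⟨k % n, Nat.mod_lt _ hn⟩)

theorem block_op (x : Fin m × Fin n → α) (u : Fin (m * (n / s + 1) * n * (s + 1)) → α)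
    (g : Fin (m * (n / s + 1) * n * (s + 1))) :
    (blockNet n m s hn hs c comb).op g (fun a => Sum.elim x u
      ((blockNet n m s hn hs c comb).src g a)) =
    if g.1 % (s + 1) = 0 then
      x (⟨g.1 / (s + 1) / n / (n / s + 1), by
        have h1 := g.2
        rw [Nat.div_div_eq_div_mul, Nat.div_div_eq_div_mul]
        apply Nat.div_lt_of_lt_mul
        calc g.1 < m * (n / s + 1) * n * (s + 1) := h1
          _ = _ := by ring⟩, ⟨(g.1 / (s + 1)) % n, Nat.mod_lt _ hn⟩)
    else if (g.1 / (s + 1)) % n = 0 then
      c (((g.1 / (s + 1) / n) % (n / s + 1)) * s + (g.1 % (s + 1) - 1)) ((g.1 / (s + 1)) % n)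
        (u ⟨g.1 - g.1 % (s + 1), (Nat.sub_le _ _).trans_lt g.2⟩)
    else comb (u ⟨g.1 - (s + 1), (Nat.sub_le _ _).trans_lt g.2⟩)
      (c (((g.1 / (s + 1) / n) % (n / s + 1)) * s + (g.1 % (s + 1) - 1)) ((g.1 / (s + 1)) % n)
        (u ⟨g.1 - g.1 % (s + 1), (Nat.sub_le _ _).trans_lt g.2⟩)) := by
  by_cases h : g.1 % (s + 1) = 0
  · rw [if_pos h]
    unfold blockNet
    simp only [dif_pos h, Sum.elim_inl]
  · rw [if_neg h]
    by_cases h' : (g.1 / (s + 1)) % n = 0
    · rw [if_pos h']
      unfold blockNet
      simp only [dif_neg h, dif_pos h', if_true, Sum.elim_inr]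
    · rw [if_neg h']
      unfold blockNet
      simp only [dif_neg h, dif_neg h', if_true, Sum.elim_inr, one_ne_zero, if_false]

end Pool.Agent.Y631.Tr
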