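import Mathlib
import Pool.Agent.Y631.TrUpB

set_option autoImplicit false

/-!
# Circuits of small treewidth for matrix-vector products: correctness
-/

open Finset

namespace Pool.Agent.Y631.Tr

variable {n m s : ℕ} {α : Type} (hn : 0 < n) (hs : 0 < s) (c : ℕ → ℕ → α → α) (comb : α → α → α)

theorem jlt {g : ℕ} (h : g < m * (n / s + 1) * n * (s + 1)) :
    g / (s + 1) / n / (n / s + 1) < m := by
  rw [Nat.div_div_eq_div_mul, Nat.div_div_eq_div_mul]
  apply Nat.div_lt_of_lt_mul
  calc g < m * (n / s + 1) * n * (s + 1) := h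
    _ = _ := by ring

/-- The value of the gate `g`. -/
def uval (x : Fin m × Fin n → α) (g : Fin (m * (n / s + 1) * n * (s + 1))) : α :=
  if g.1 % (s + 1) = 0 then
    x (⟨g.1 / (s + 1) / n / (n / s + 1), jlt g.2⟩, ⟨(g.1 / (s + 1)) % n, Nat.mod_lt _ hn⟩)
  else pre comb (fun k => c (((g.1 / (s + 1) / n) % (n / s + 1)) * s + (g.1 % (s + 1) - 1)) k
    (inK hn x ⟨g.1 / (s + 1) / n / (n / s + 1), jlt g.2⟩ k)) ((g.1 / (s + 1)) % n)

theorem block_vals (x : Fin m × Fin n → α) (g : Fin (m * (n / s + 1) * n * (s + 1))) :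
    uval hn c comb x g = (blockNet n m s hn hs c comb).op g (fun a => Sum.elim x
      (uval hn c comb x) ((blockNet n m s hn hs c comb).src g a)) := by
  rw [block_op]
  by_cases h : g.1 % (s + 1) = 0
  · rw [if_pos h]
    unfold uval
    rw [if_pos h]
  · rw [if_neg h]
    obtain ⟨e1, e2⟩ := idx1 (g := g.1) (s := s) (e := g.1 % (s + 1)) rfl
    have hsrc : uval hn c comb x ⟨g.1 - g.1 % (s + 1), (Nat.sub_le _ _).trans_lt g.2⟩ =
        inK hn x ⟨g.1 / (s + 1) / n / (n / s + 1), jlt g.2⟩ ((g.1 / (s + 1)) % n) := by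
      unfold uval inK
      rw [if_pos e1]
      congr 1
      apply Prod.ext
      · apply Fin.ext
        simp only [e2]
      · apply Fin.ext
        simp only [e2, Nat.mod_mod]
    by_cases h' : (g.1 / (s + 1)) % n = 0
    · rw [if_pos h', hsrc]
      unfold uval
      rw [if_neg h, h']
      rfl
    · rw [if_neg h', hsrc]
      have hpos : 0 < g.1 / (s + 1) := by
        rcases Nat.eq_zero_or_pos (g.1 / (s + 1)) with h5 | h5
        · rw [h5, Nat.zero_mod] at h'
          exact absurd rfl h'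
        · exact h5
      obtain ⟨e3, e4⟩ := idx2 (g := g.1) (s := s) hpos
      obtain ⟨e5, e6⟩ := idx3 (q := g.1 / (s + 1)) (n := n) (by omega)
      have hold : uval hn c comb x ⟨g.1 - (s + 1), (Nat.sub_le _ _).trans_lt g.2⟩ =
          pre comb (fun k => c (((g.1 / (s + 1) / n) % (n / s + 1)) * s + (g.1 % (s + 1) - 1)) k
            (inK hn x ⟨g.1 / (s + 1) / n / (n / s + 1), jlt g.2⟩ k))
            ((g.1 / (s + 1)) % n - 1) := by
        unfold uval
        rw [if_neg (by rw [e3]; exact h)]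
        simp only [e3, e4, e5, e6]
      rw [hold]
      conv_lhs => unfold uval
      rw [if_neg h]
      obtain ⟨k, hk⟩ : ∃ k, (g.1 / (s + 1)) % n = k + 1 := ⟨(g.1 / (s + 1)) % n - 1, by omega⟩
      rw [hk]
      rfl

theorem block_computes (x : Fin m × Fin n → α) (y : Fin m × Fin n → α)
    (hy : ∀ j i, y (j, i) = pre comb (fun k => c i.1 k (inK hn x j k)) (n - 1)) :
    (blockNet n m s hn hs c comb).Computes x y := by
  refine ⟨uval hn c comb x, fun g => block_vals hn hs c comb x g, ?_⟩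
  rintro ⟨j, i⟩
  rw [hy]
  have hir : i.1 % s < s := Nat.mod_lt _ hs
  obtain ⟨G, hG⟩ : ∃ G, G = ((j.1 * (n / s + 1) + i.1 / s) * n + (n - 1)) * (s + 1) +
    (i.1 % s + 1) := ⟨_, rfl⟩
  have e1 : G % (s + 1) = i.1 % s + 1 := by
    rw [hG, Nat.mul_add_mod', Nat.mod_eq_of_lt (by omega)]
  have e2 : G / (s + 1) = (j.1 * (n / s + 1) + i.1 / s) * n + (n - 1) := by
    rw [hG, mul_comm _ (s + 1), Nat.mul_add_div (Nat.succ_pos s),
      Nat.div_eq_of_lt (by omega : i.1 % s + 1 < s + 1), Nat.add_zero]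
  have e3 : G / (s + 1) % n = n - 1 := by
    rw [e2, Nat.mul_add_mod', Nat.mod_eq_of_lt (by omega)]
  have e4 : G / (s + 1) / n = j.1 * (n / s + 1) + i.1 / s := by
    rw [e2, mul_comm _ n, Nat.mul_add_div hn, Nat.div_eq_of_lt (by omega : n - 1 < n),
      Nat.add_zero]
  have hlt : i.1 / s < n / s + 1 := Nat.lt_succ_of_le (Nat.div_le_div_right i.2.le)
  have e5 : G / (s + 1) / n % (n / s + 1) = i.1 / s := by
    rw [e4, Nat.mul_add_mod', Nat.mod_eq_of_lt hlt]
  have e6 : G / (s + 1) / n / (n / s + 1) = j.1 := by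
    rw [e4, mul_comm _ (n / s + 1), Nat.mul_add_div (Nat.succ_pos _), Nat.div_eq_of_lt hlt,
      Nat.add_zero]
  have hout : ((blockNet n m s hn hs c comb).out (j, i)).1 = G := hG.symm
  have hval : ∀ g : Fin (m * (n / s + 1) * n * (s + 1)), g.1 = G →
      uval hn c comb x g = pre comb (fun k => c i.1 k (inK hn x j k)) (n - 1) := by
    intro g hg
    unfold uval
    rw [if_neg (by rw [hg, e1]; omega)]
    have e7 : (⟨g.1 / (s + 1) / n / (n / s + 1), jlt g.2⟩ : Fin m) = j := by
      apply Fin.ext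
      simp only [hg, e6]
    rw [e7]
    simp only [hg, e1, e3, e5]
    have e8 : i.1 / s * s + (i.1 % s + 1 - 1) = i.1 := by
      rw [Nat.add_sub_cancel]
      exact Nat.div_add_mod' i.1 s
    rw [e8]
  exact hval _ hout

/-- Linear algebra: the sums. -/
theorem pre_sum {F : Type} [AddCommMonoid F] (f : ℕ → F) (k : ℕ) :
    pre (fun a b => a + b) f k = ∑ i ∈ Finset.range (k + 1), f i := by
  induction k with
  | zero => simp [pre]
  | succ k ih => rw [Finset.sum_range_succ, ← ih]; rfl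

end Pool.Agent.Y631.Tr
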