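import Mathlib
import Pool.Agent.Y631.TrUpC
import Pool.Agent.Y631.TrMv

set_option autoImplicit false

/-!
# Matrix-vector products over a finite field: reads times treewidth, both bounds
-/

open Finset

namespace Pool.Agent.Y631.Tr

open Pool.Agent.W896.MO (mv)

variable {F : Type} [Field F]

theorem mv_upper {n m s : ℕ} (hm : 0 < m) (hs : 0 < s) (hsn : s ≤ n) (M : Fin n → Fin n → F) :
    ∃ C : Net (Fin m × Fin n) (Fin m × Fin n) F, (∀ g, C.arity g ≤ 2) ∧
      C.TreewidthLE (s + 1) ∧ C.reads * s ≤ 2 * (n ^ 2 * m) ∧ ∀ v, C.Computes v (mv M v) := by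
  have hn : 0 < n := by omega
  obtain ⟨c, hc⟩ : ∃ c : ℕ → ℕ → F → F, ∀ i k a, c i k a =
    (if h : i < n ∧ k < n then M ⟨i, h.1⟩ ⟨k, h.2⟩ else 0) * a := ⟨_, fun _ _ _ => rfl⟩
  refine ⟨blockNet n m s hn hs c (fun a b => a + b), block_arity hn hs c _, block_tw hn hs c _ hm,
    block_reads hn hs c _ hsn, fun v => block_computes hn hs c _ v _ ?_⟩
  intro j i
  rw [pre_sum, Nat.sub_add_cancel (by omega)]
  unfold mv
  rw [← Fin.sum_univ_eq_sum_range (fun k => c i.1 k (inK hn v j k)) n]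
  apply Finset.sum_congr rfl
  intro k _
  rw [hc, dif_pos ⟨i.2, k.2⟩]
  unfold inK
  congr 2
  exact Prod.ext rfl (Fin.ext (Nat.mod_eq_of_lt k.2).symm)

end Pool.Agent.Y631.Tr
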