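import Mathlib
import Pool.Agent.Y631.WcSum

set_option autoImplicit false

/-!
# Word circuits: vertex covers
-/

open Finset

namespace Pool.Agent.Y631.Wc

/-- `S` contains an endpoint of each edge of the list `x`. -/
def IsCover {m : ℕ} (x : Fin m → ℕ × ℕ) (S : Finset ℕ) : Prop := ∀ i, (x i).1 ∈ S ∨ (x i).2 ∈ S

/-- The values `val z` of the output gate are upper bounds for the size of a smallest vertex cover,
and some possible value is at most `ρ` times this size. -/
def WCirc.Approximates {m : ℕ} {Z : Type} (C : WCirc (Fin m) (ℕ × ℕ) Z) (n : ℕ) (ρ : ℝ)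
    (val : Z → ℝ) : Prop :=
  ∀ x, IsGraph n x →
    (∀ v, C.Run x v → ∃ S, IsCover x S ∧ (S.card : ℝ) ≤ val (v C.out)) ∧
    ∃ v, C.Run x v ∧ ∀ S, IsCover x S → val (v C.out) ≤ ρ * S.card

/-- **Reed–Solomon codes.** -/
theorem rs_code {q k d : ℕ} (hq : q.Prime) (hkq : k ≤ q) :
    ∃ c : (Fin d → Fin q) → Fin k → Fin q, ∀ p p', p ≠ p' →
      (univ.filter fun j => c p j = c p' j).card < d := by
  classical
  have : Fact q.Prime := ⟨hq⟩
  obtain ⟨e⟩ : Nonempty (ZMod q ≃ Fin q) := ⟨Fintype.equivFinOfCardEq (ZMod.card q)⟩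
  refine ⟨fun p j => e (∑ i : Fin d, e.symm (p i) * ((j.1 : ZMod q)) ^ i.1), fun p p' hpp => ?_⟩
  obtain ⟨P, hP⟩ : ∃ P : Polynomial (ZMod q), P = ∑ i : Fin d,
    Polynomial.C (e.symm (p i) - e.symm (p' i)) * Polynomial.X ^ i.1 := ⟨_, rfl⟩
  have hdeg : P.degree < d := by
    rw [hP]
    exact Polynomial.degree_sum_fin_lt _
  have hP0 : P ≠ 0 := by
    intro h0
    apply hpp
    funext i
    have h1 : P.coeff i.1 = e.symm (p i) - e.symm (p' i) := by
      rw [hP, Polynomial.finsetSum_coeff]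
      rw [Finset.sum_eq_single i]
      · rw [Polynomial.coeff_C_mul_X_pow, if_pos rfl]
      · intro i' _ hi'
        rw [Polynomial.coeff_C_mul_X_pow, if_neg]
        intro h2
        exact hi' (Fin.ext h2.symm)
      · intro h2
        exact absurd (mem_univ _) h2
    rw [h0, Polynomial.coeff_zero] at h1
    exact e.symm.injective (sub_eq_zero.1 h1.symm)
  have hsub : (univ.filter fun j : Fin k => e (∑ i : Fin d, e.symm (p i) * ((j.1 : ZMod q)) ^ i.1) =
      e (∑ i : Fin d, e.symm (p' i) * ((j.1 : ZMod q)) ^ i.1)).card ≤ P.roots.toFinset.card := by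
    apply Finset.card_le_card_of_injOn (fun j => ((j.1 : ℕ) : ZMod q))
    · intro j hj
      rw [Finset.mem_coe, mem_filter] at hj
      have h1 := e.injective hj.2
      rw [Finset.mem_coe, Multiset.mem_toFinset, Polynomial.mem_roots hP0, Polynomial.IsRoot.def,
        hP, Polynomial.eval_finsetSum]
      simp only [Polynomial.eval_mul, Polynomial.eval_C, Polynomial.eval_pow, Polynomial.eval_X,
        sub_mul, Finset.sum_sub_distrib]
      rw [h1, sub_self]
    · intro j _ j' _ hjj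
      have h1 : ((j.1 : ℕ) : ZMod q) = ((j'.1 : ℕ) : ZMod q) := hjj
      rw [ZMod.natCast_eq_natCast_iff] at h1
      exact Fin.ext (Nat.ModEq.eq_of_lt_of_lt h1 (lt_of_lt_of_le j.2 hkq)
        (lt_of_lt_of_le j'.2 hkq))
  have h3 : P.roots.toFinset.card ≤ P.natDegree :=
    (Multiset.toFinset_card_le _).trans (Polynomial.card_roots' P)
  have h4 : P.natDegree < d := (Polynomial.natDegree_lt_iff_degree_lt hP0).2 hdeg
  exact lt_of_le_of_lt (hsub.trans h3) h4

/-- The edge at a place. -/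
def vedg {k q : ℕ} (W : ℕ) (a b : Fin k → Fin q) (i : ℕ) :
    Option (Fin k ⊕ Fin k ⊕ Fin k) → ℕ × ℕ
  | some (Sum.inl j) => (q * j.1 + (a j).1, W + j.1)
  | some (Sum.inr (Sum.inl j)) => (q * j.1 + (b j).1, W + k + j.1)
  | some (Sum.inr (Sum.inr _)) => (W + 2 * k, W + 2 * k + 1 + i)
  | none => (W + 2 * k, W + 2 * k + 1 + i)

theorem vc_bound {r κ θ m n q k d L : ℕ} (hr : 1 ≤ r) (hq : q.Prime) (hkq : k ≤ q) (hqL : q ≤ L)
    (hd : 1 ≤ d) (hdk : d ≤ k) (hk : 2 ^ (24 * r + 1) * k ≤ m) (hn : q * k + 2 * k + 1 + m ≤ n)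
    {Z : Type} [Fintype Z] (hZ : Fintype.card Z ≤ L)
    (C : WCirc (Fin m) (ℕ × ℕ) Z) (hκ : C.FanIn κ) (hθ : C.TreewidthLE θ)
    (hR : C.reads ≤ r * m)
    (hyes : ∀ x, IsGraph n x → (∃ S, IsCover x S ∧ S.card ≤ k + 1) → C.Accepts x)
    (hno : ∀ x, IsGraph n x → C.Accepts x → ∃ S, IsCover x S ∧ S.card + d ≤ 2 * k + 1) :
    q ^ d ≤ L ^ (10000 * r ^ 2 * (κ + 1) * (θ + 1)) := by
  classical
  have hk0 : 1 ≤ k := hd.trans hdk
  have hL1 : 1 ≤ L := hq.one_lt.le.trans hqL
  -- numbers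
  have e3 : 4 ^ (12 * r) = 2 ^ (24 * r) := by
    rw [show (4 : ℕ) = 2 ^ 2 by norm_num, ← pow_mul]
    congr 1
    ring
  have e4 : 24 * r < 2 ^ (24 * r) := Nat.lt_two_pow_self
  have e5 : 2 ^ (24 * r + 1) * k = 2 * (4 ^ (12 * r) * k) := by
    rw [e3, pow_succ]
    ring
  have e7 : 2 ^ (24 * r) * 1 ≤ 4 ^ (12 * r) * k := by
    rw [e3]
    exact Nat.mul_le_mul_left _ hk0
  have e8 : 24 * k ≤ 4 ^ (12 * r) * k := by
    apply Nat.mul_le_mul_right
    rw [e3]
    omega
  obtain ⟨X1, X2, hX, hX1, hX2⟩ := halves m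
  obtain ⟨K, hK⟩ : ∃ K, K = 10000 * r ^ 2 * (κ + 1) * (θ + 1) := ⟨_, rfl⟩
  rw [← hK]
  have h4pos : 0 < 4 ^ (12 * r) := Nat.pow_pos (by norm_num)
  rcases C.core hr hκ hθ hR X1 X2 hX1 hX2 (by omega) (by omega) hK with
    h | ⟨B, A, E, hA, hE, hAc, hEc, hB, hmix⟩
  · exact (Nat.pow_le_pow_left hqL _).trans (Nat.pow_le_pow_right hL1 (by omega))
  have hkA : k ≤ A.card := Nat.le_of_mul_le_mul_left (le_trans (by omega) hAc) h4pos
  have hkE : k ≤ E.card := Nat.le_of_mul_le_mul_left (le_trans (by omega) hEc) h4pos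
  obtain ⟨σ, s1, s2, s3, s4⟩ := places X1 X2 A E hX hA hE hkA hkE (by omega)
  have hAE : Disjoint A E := Finset.disjoint_of_subset_left hA
    (Finset.disjoint_of_subset_right hE hX)
  obtain ⟨W, hW⟩ : ∃ W, W = q * k := ⟨_, rfl⟩
  have hlt : ∀ (j : Fin k) (u : Fin q), q * j.1 + u.1 < W := fun j u => by
    rw [hW]
    exact code_lt j u
  obtain ⟨inst, hinst⟩ : ∃ inst : (Fin k → Fin q) → (Fin k → Fin q) → Fin m → ℕ × ℕ,
    ∀ a b i, inst a b i = vedg W a b i.1 (σ i) := ⟨_, fun _ _ _ => rfl⟩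
  have hi1 : ∀ a b b' i, i ∉ E → inst a b i = inst a b' i := by
    intro a b b' i hi
    rw [hinst, hinst]
    rcases h : σ i with _ | (j | j | j)
    · simp only [vedg]
    · simp only [vedg]
    · exact absurd (s2 i j h) hi
    · simp only [vedg]
  have hi2 : ∀ a a' b i, i ∉ A → inst a b i = inst a' b i := by
    intro a a' b i hi
    rw [hinst, hinst]
    rcases h : σ i with _ | (j | j | j)
    · simp only [vedg]
    · exact absurd (s1 i j h) hi
    · simp only [vedg]
    · simp only [vedg]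
  have hgood : ∀ a b, IsGraph n (inst a b) := by
    intro a b
    rw [← hW] at hn
    refine ⟨fun i => ?_, ?_⟩
    · have hi := i.2
      rw [hinst]
      rcases h : σ i with _ | (j | j | j)
      · simp only [vedg]; omega
      · have := hlt j (a j)
        have := j.2
        simp only [vedg]; omega
      · have := hlt j (b j)
        have := j.2
        simp only [vedg]; omega
      · simp only [vedg]; omega
    · intro i i' hii
      rw [hinst, hinst] at hii
      rcases h : σ i with _ | (j | j | j) <;> rcases h' : σ i' with _ | (j' | j' | j') <;>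
        simp only [vedg, h, h', Prod.mk.injEq] at hii
      all_goals try (have := j.2)
      all_goals try (have := j'.2)
      all_goals try exact Fin.ext (by omega)
      all_goals
        have hjj : j = j' := Fin.ext (by omega)
        subst hjj
        exact s4 _ _ _ h h'
  -- small covers
  have hsmall : ∀ a, ∃ S, IsCover (inst a a) S ∧ S.card ≤ k + 1 := by
    intro a
    refine ⟨insert (W + 2 * k) (univ.image fun j : Fin k => q * j.1 + (a j).1), fun i => ?_, ?_⟩
    · rw [hinst]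
      left
      rcases h : σ i with _ | (j | j | j)
      · simp only [vedg]
        exact mem_insert_self _ _
      · simp only [vedg]
        exact mem_insert_of_mem (mem_image_of_mem _ (mem_univ j))
      · simp only [vedg]
        exact mem_insert_of_mem (mem_image_of_mem _ (mem_univ j))
      · simp only [vedg]
        exact mem_insert_self _ _
    · refine (card_insert_le _ _).trans (Nat.succ_le_succ (card_image_le.trans ?_))
      rw [card_univ, Fintype.card_fin]
  -- large covers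
  have hlarge : ∀ a b S, IsCover (inst a b) S →
      k + (univ.filter fun j => a j ≠ b j).card + 1 ≤ S.card := by
    intro a b S hS
    have hf : ∀ j : Fin k, ∃ y ∈ S, y = q * j.1 + (a j).1 ∨ y = W + j.1 := by
      intro j
      obtain ⟨i, hi⟩ := s3 (Sum.inl j)
      have h1 := hS i
      rw [hinst, hi] at h1
      simp only [vedg] at h1
      rcases h1 with h1 | h1
      · exact ⟨_, h1, Or.inl rfl⟩
      · exact ⟨_, h1, Or.inr rfl⟩
    have hg : ∀ j : Fin k, ∃ y ∈ S, y = q * j.1 + (b j).1 ∨ y = W + k + j.1 := by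
      intro j
      obtain ⟨i, hi⟩ := s3 (Sum.inr (Sum.inl j))
      have h1 := hS i
      rw [hinst, hi] at h1
      simp only [vedg] at h1
      rcases h1 with h1 | h1
      · exact ⟨_, h1, Or.inl rfl⟩
      · exact ⟨_, h1, Or.inr rfl⟩
    have hh : ∃ y ∈ S, W + 2 * k ≤ y := by
      obtain ⟨i, hi⟩ := s3 (Sum.inr (Sum.inr ⟨0, hk0⟩))
      have h1 := hS i
      rw [hinst, hi] at h1
      simp only [vedg] at h1
      rcases h1 with h1 | h1
      · exact ⟨_, h1, le_rfl⟩
      · exact ⟨_, h1, by omega⟩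
    choose f hf1 hf2 using hf
    choose g hg1 hg2 using hg
    obtain ⟨y, hy1, hy2⟩ := hh
    have hfi : ∀ j j', f j = f j' → j = j' := by
      intro j j' h
      have h1 := hlt j (a j)
      have h2 := hlt j' (a j')
      rcases hf2 j with h3 | h3 <;> rcases hf2 j' with h4 | h4
      · exact (code_inj (h3 ▸ h4 ▸ h : q * j.1 + (a j).1 = q * j'.1 + (a j').1)).1
      · omega
      · omega
      · exact Fin.ext (by omega)
    have hgi : ∀ j j', g j = g j' → j = j' := by
      intro j j' h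
      have h1 := hlt j (b j)
      have h2 := hlt j' (b j')
      rcases hg2 j with h3 | h3 <;> rcases hg2 j' with h4 | h4
      · exact (code_inj (h3 ▸ h4 ▸ h : q * j.1 + (b j).1 = q * j'.1 + (b j').1)).1
      · omega
      · omega
      · exact Fin.ext (by omega)
    have hfg : ∀ j j', a j' ≠ b j' → f j ≠ g j' := by
      intro j j' hab h
      have h1 := hlt j (a j)
      have h2 := hlt j' (b j')
      have h5 := j.2
      rcases hf2 j with h3 | h3 <;> rcases hg2 j' with h4 | h4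
      · obtain ⟨h6, h7⟩ := code_inj (h3 ▸ h4 ▸ h : q * j.1 + (a j).1 = q * j'.1 + (b j').1)
        subst h6
        exact hab h7
      · omega
      · omega
      · omega
    have h5 : insert y (univ.image f ∪ (univ.filter fun j => a j ≠ b j).image g) ⊆ S := by
      intro z hz
      rcases mem_insert.1 hz with rfl | hz
      · exact hy1
      rcases mem_union.1 hz with hz | hz
      · obtain ⟨j, -, rfl⟩ := mem_image.1 hz
        exact hf1 j
      · obtain ⟨j, -, rfl⟩ := mem_image.1 hz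
        exact hg1 j
    refine le_trans ?_ (card_le_card h5)
    rw [card_insert_of_notMem, card_union_of_disjoint, card_image_of_injective _ hfi,
      card_image_of_injOn (fun j _ j' _ h => hgi j j' h), card_univ, Fintype.card_fin]
    · rw [Finset.disjoint_left]
      intro z h6 h7
      obtain ⟨j, -, rfl⟩ := mem_image.1 h6
      obtain ⟨j', hj', h8⟩ := mem_image.1 h7
      exact hfg j j' (mem_filter.1 hj').2 h8.symm
    · intro h6
      rcases mem_union.1 h6 with h6 | h6
      · obtain ⟨j, -, rfl⟩ := mem_image.1 h6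
        have h7 := hlt j (a j)
        have h8 := j.2
        rcases hf2 j with h9 | h9 <;> omega
      · obtain ⟨j, -, rfl⟩ := mem_image.1 h6
        have h7 := hlt j (b j)
        have h8 := j.2
        rcases hg2 j with h9 | h9 <;> omega
  -- the code
  obtain ⟨c, hc⟩ := rs_code (k := k) (d := d) hq hkq
  have hcls : ∀ p : Fin d → Fin q, ∃ cl : {g // g ∈ C.plus B} → Z,
      inst (c p) (c p) ∈ C.Cls B cl := by
    intro p
    obtain ⟨v, hv, ho⟩ := hyes _ (hgood (c p) (c p)) (hsmall (c p))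
    exact ⟨fun g => v g.1, v, hv, ho, fun _ => rfl⟩
  choose F hF using hcls
  have hinj : Function.Injective F := by
    intro p p' hpp
    by_contra hne
    have h1 : inst (c p) (c p') ∈ C.Cls B (F p) := by
      apply hmix (F p) _ _ _ (hF p) (hpp ▸ hF p')
      · intro i hiA hiE
        rw [hi1 (c p) (c p) (c p') i hiE]
        exact hi2 (c p) (c p') (c p') i hiA
      · intro i hiA
        exact hi1 (c p) (c p') (c p) i (Finset.disjoint_left.1 hAE hiA)
      · intro i hiA
        exact hi2 (c p) (c p') (c p') i hiA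
    obtain ⟨v, hv, ho, -⟩ := h1
    obtain ⟨S, hS, hSc⟩ := hno _ (hgood _ _) ⟨v, hv, ho⟩
    have h2 := hlarge _ _ S hS
    have h3 := hc p p' hne
    have h4 := Finset.card_filter_add_card_filter_not (s := (univ : Finset (Fin k)))
      (fun j => c p j = c p' j)
    rw [card_univ, Fintype.card_fin] at h4
    have h5 : (univ.filter fun j => c p j ≠ c p' j).card =
      (univ.filter fun j => ¬ c p j = c p' j).card := rfl
    omega
  have hfin := Fintype.card_le_of_injective F hinj
  rw [Fintype.card_fun, Fintype.card_fun, Fintype.card_fin, Fintype.card_fin,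
    Fintype.card_coe] at hfin
  exact hfin.trans ((Nat.pow_le_pow_left hZ _).trans (Nat.pow_le_pow_right hL1 hB))

/-- **The ratio two.** -/
theorem vc_superlinear (N c κ : ℕ) (hN : 1 ≤ N) (ε : ℝ) (hε : 0 < ε) (hε1 : ε ≤ 1) : ∃ m₀ : ℕ,
    ∀ m ≥ m₀, ∀ n ≥ 4 * m ^ 2, ∀ (Z : Type) [Fintype Z], Fintype.card Z ≤ m ^ c →
      ∀ (C : WCirc (Fin m) (ℕ × ℕ) Z) (θ : ℕ) (val : Z → ℝ), C.FanIn κ → C.TreewidthLE θ →
        (θ : ℝ) ≤ (m : ℝ) ^ (1 - ε) → C.Approximates n (2 - 1 / N) val →
        ε / 30 * (m * Real.logb 2 m) ≤ C.reads := by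
  classical
  obtain ⟨m₀, h2, hm₀⟩ := numeric (3 * N * (c + 2)) κ ε hε hε1
  refine ⟨m₀, fun m hm n hn Z _ hZ C θ val hκ hθ hθm happ => ?_⟩
  by_contra hcon
  push Not at hcon
  obtain ⟨r, hr1, hr2, hr3⟩ := choose_r hε (by omega) hcon
  have hnum := hm₀ m hm r θ hr3 hθm
  obtain ⟨K, hK⟩ : ∃ K, K = 10000 * r ^ 2 * (κ + 1) * (θ + 1) := ⟨_, rfl⟩
  obtain ⟨k, hk⟩ : ∃ k, k = m / 2 ^ (24 * r + 1) := ⟨_, rfl⟩
  rw [← hK, ← hk] at hnum
  have hm1 : 1 ≤ m := by omega
  have hK1 : 1 ≤ K := by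
    rw [hK]
    have : 0 < 10000 * r ^ 2 * (κ + 1) * (θ + 1) := by positivity
    exact this
  have hkm : 2 ^ (24 * r + 1) * k ≤ m := by
    rw [hk, mul_comm]
    exact Nat.div_mul_le_self _ _
  have hkm' : k ≤ m := by
    rw [hk]
    exact Nat.div_le_self _ _
  obtain ⟨q, hq, hmq, hq2⟩ := Nat.exists_prime_lt_and_le_two_mul m (by omega)
  obtain ⟨d, hd⟩ : ∃ d, d = (k + 1) / N - 1 := ⟨_, rfl⟩
  have hNk : 3 * N * (c + 2) * K + 1 < k := hnum
  have h6N : 6 * N ≤ 3 * N * (c + 2) * K := by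
    calc 6 * N = 3 * N * 2 * 1 := by ring
      _ ≤ 3 * N * (c + 2) * K := by gcongr; omega
  have hdiv1 : (k + 1) / N * N ≤ k + 1 := Nat.div_mul_le_self _ _
  have hdiv2 : k + 1 < ((k + 1) / N + 1) * N := by
    have := Nat.lt_div_mul_add (a := k + 1) (b := N) hN
    rw [add_mul, one_mul]
    exact this
  have hdiv3 : 2 ≤ (k + 1) / N := (Nat.le_div_iff_mul_le hN).2 (by omega)
  have hd1 : 1 ≤ d := by omega
  have hdk : d ≤ k := by
    have : (k + 1) / N ≤ k + 1 := Nat.div_le_self _ _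
    omega
  have hd1' : d + 1 = (k + 1) / N := by omega
  -- the gap version
  obtain ⟨C', hC'⟩ : ∃ C' : WCirc (Fin m) (ℕ × ℕ) Z,
    C' = { C with acc := fun z => val z ≤ (2 - 1 / (N : ℝ)) * (k + 1) } := ⟨_, rfl⟩
  have hN0 : (0 : ℝ) < N := by exact_mod_cast hN
  have hratio : 0 ≤ 2 - 1 / (N : ℝ) := by
    have : 1 / (N : ℝ) ≤ 1 := by
      rw [div_le_one hN0]
      exact_mod_cast hN
    linarith
  have key : q ^ d ≤ (m ^ (c + 2)) ^ K := by
    rw [hK]
    have hmm : 2 * m ≤ m ^ (c + 2) := by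
      calc 2 * m ≤ m * m := Nat.mul_le_mul_right _ (by omega)
        _ = m ^ 2 := (sq m).symm
        _ ≤ m ^ (c + 2) := Nat.pow_le_pow_right hm1 (by omega)
    refine vc_bound (k := k) (n := n) hr1 hq (by omega) (hq2.trans hmm) hd1 hdk hkm ?_
      (hZ.trans (Nat.pow_le_pow_right hm1 (by omega))) C' (by rw [hC']; exact hκ)
      (by rw [hC']; exact hθ) (by rw [hC']; exact hr2) ?_ ?_
    · have h1 : q * k ≤ 2 * m * m := Nat.mul_le_mul hq2 hkm'
      have h2 : 2 * k ≤ 2 ^ (24 * r + 1) * k := by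
        apply Nat.mul_le_mul_right
        calc 2 = 2 ^ 1 := (pow_one 2).symm
          _ ≤ 2 ^ (24 * r + 1) := Nat.pow_le_pow_right (by norm_num) (by omega)
      have h3 : 2 * m ≤ m * m := Nat.mul_le_mul_right _ (by omega)
      have h4 : m ^ 2 = m * m := sq m
      have h5 : 2 * m * m = 2 * (m * m) := by ring
      have h6 : 1 ≤ m * m := Nat.mul_le_mul hm1 hm1
      omega
    · rintro x hx ⟨S, hS, hSc⟩
      obtain ⟨-, v, hv, hval⟩ := happ x hx
      rw [hC']
      refine ⟨v, hv, (hval S hS).trans ?_⟩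
      apply mul_le_mul_of_nonneg_left _ hratio
      exact_mod_cast hSc
    · rintro x hx hacc
      rw [hC'] at hacc
      obtain ⟨v, hv, hva⟩ := hacc
      obtain ⟨S, hS, hSv⟩ := (happ x hx).1 v hv
      refine ⟨S, hS, ?_⟩
      have h1 : (S.card : ℝ) ≤ (2 - 1 / (N : ℝ)) * (k + 1) := hSv.trans hva
      have h2 : ((d : ℝ) + 1) * N ≤ k + 1 := by
        rw [← hd1'] at hdiv1
        exact_mod_cast hdiv1
      have h3 : (d : ℝ) + 1 ≤ 1 / (N : ℝ) * (k + 1) := by
        rw [one_div, inv_mul_eq_div, le_div_iff₀ hN0]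
        exact h2
      have h4 : (S.card : ℝ) + d ≤ 2 * k + 1 := by
        have : (2 - 1 / (N : ℝ)) * (k + 1) = 2 * (k + 1) - 1 / (N : ℝ) * (k + 1) := by ring
        linarith
      exact_mod_cast h4
  have h5 : m ^ d ≤ m ^ ((c + 2) * K) := by
    calc m ^ d ≤ q ^ d := Nat.pow_le_pow_left hmq.le _
      _ ≤ _ := key
      _ = _ := (pow_mul _ _ _).symm
  have h6 : d ≤ (c + 2) * K := (Nat.pow_le_pow_iff_right (by omega)).1 h5
  have h7 : (d + 2) * N ≤ ((c + 2) * K + 2) * N := Nat.mul_le_mul_right _ (by omega)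
  have h8 : ((c + 2) * K + 2) * N = N * (c + 2) * K + 2 * N := by ring
  have h9 : 3 * N * (c + 2) * K = 3 * (N * (c + 2) * K) := by ring
  have h10 : ((k + 1) / N + 1) * N = (d + 2) * N := by rw [← hd1']
  omega

end Pool.Agent.Y631.Wc
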